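import Pool.Agent.H82.HD.TR
import Pool.Agent.H82.HD.TC

/-!
MP_ee74d2_an, theorem HD: counting lemmas for the row CBA.
-/

set_option autoImplicit false

namespace Pool.Agent.H81.HDS

open Set
open Pool.Agent.H83.G Pool.Agent.H82.HD
open Pool.Agent.H22.G (co)

/-- a set is bounded by the size of the fibres and of the image -/
theorem card_le_real {α β : Type} [DecidableEq β] (s : Finset α) (f : α → β) (M : ℝ)
    (h : ∀ b ∈ s.image f, ((s.filter (fun x => f x = b)).card : ℝ) ≤ M) :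
    (s.card : ℝ) ≤ M * (s.image f).card := by
  rw [Finset.card_eq_sum_card_image f s]
  push_cast
  refine (Finset.sum_le_sum h).trans (le_of_eq ?_)
  rw [Finset.sum_const, nsmul_eq_mul, mul_comm]

/-- a large fibre -/
theorem big_fibre {α β : Type} [DecidableEq β] (s : Finset α) (f : α → β) (hs : s.Nonempty) :
    ∃ b ∈ s.image f, (s.card : ℝ) ≤
      (s.image f).card * ((s.filter (fun x => f x = b)).card : ℝ) := by
  obtain ⟨b, hb, hmax⟩ := Finset.exists_max_image (s.image f)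
    (fun b => ((s.filter (fun x => f x = b)).card : ℝ)) (hs.image f)
  refine ⟨b, hb, ?_⟩
  rw [mul_comm]
  exact card_le_real s f _ hmax

/-- the number of integral parts of points which are close to each other -/
theorem card_floor {α : Type} {n : ℕ} [DecidableEq (Fin n → ℤ)] (s : Finset α)
    (f : α → Fin n → ℝ) (L : ℝ) (hL : 0 ≤ L)
    (h : ∀ a ∈ s, ∀ b ∈ s, ∀ i, |f a i - f b i| ≤ L) :
    ((s.image fun a i => ⌊f a i⌋).card : ℝ) ≤ (2 * L + 2) ^ n := by
  classical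
  rcases s.eq_empty_or_nonempty with rfl | ⟨a₀, ha₀⟩
  · simp only [Finset.image_empty, Finset.card_empty, Nat.cast_zero]
    positivity
  have hsub : (s.image fun a i => ⌊f a i⌋) ⊆
      Fintype.piFinset fun i => Finset.Icc ⌊f a₀ i - L⌋ ⌊f a₀ i + L⌋ := by
    intro w hw
    rw [Finset.mem_image] at hw
    obtain ⟨a, ha, rfl⟩ := hw
    rw [Fintype.mem_piFinset]
    intro i
    have h1 := abs_le.1 (h a ha a₀ ha₀ i)
    rw [Finset.mem_Icc]
    exact ⟨Int.floor_le_floor (by linarith [h1.1]), Int.floor_le_floor (by linarith [h1.2])⟩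
  have h1 : ((s.image fun a i => ⌊f a i⌋).card : ℝ) ≤
      ((Fintype.piFinset fun i => Finset.Icc ⌊f a₀ i - L⌋ ⌊f a₀ i + L⌋).card : ℝ) := by
    have := Finset.card_le_card hsub
    exact_mod_cast this
  refine h1.trans ?_
  rw [Fintype.card_piFinset]
  push_cast
  have h2 : ∀ i ∈ (Finset.univ : Finset (Fin n)),
      ((Finset.Icc ⌊f a₀ i - L⌋ ⌊f a₀ i + L⌋).card : ℝ) ≤ 2 * L + 2 := by
    intro i _
    rw [Int.card_Icc]
    have h3 : ((⌊f a₀ i + L⌋ + 1 - ⌊f a₀ i - L⌋).toNat : ℝ) =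
        ((⌊f a₀ i + L⌋ + 1 - ⌊f a₀ i - L⌋ : ℤ) : ℝ) := by
      have h4 : 0 ≤ ⌊f a₀ i + L⌋ + 1 - ⌊f a₀ i - L⌋ := by
        have := Int.floor_le_floor (show f a₀ i - L ≤ f a₀ i + L by linarith)
        omega
      exact_mod_cast Int.toNat_of_nonneg h4
    rw [h3]
    push_cast
    have h5 := Int.floor_le (f a₀ i + L)
    have h6 := Int.lt_floor_add_one (f a₀ i - L)
    linarith
  refine (Finset.prod_le_prod (fun i _ => Nat.cast_nonneg _) h2).trans (le_of_eq ?_)
  rw [Finset.prod_const, Finset.card_univ, Fintype.card_fin]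

section

variable {m : ℕ}

theorem vc_sub (p p' : ℝ × E m) (i : Fin (m + 1)) : vc (p - p') i = vc p i - vc p' i := by
  unfold vc
  refine Fin.cases ?_ (fun j => ?_) i
  · simp
  · simp

/-- the norm is bounded by the coordinates -/
theorem norm_le_vc (p : ℝ × E m) (s : ℝ) (hs : 0 ≤ s) (h : ∀ i, |vc p i| ≤ s / ((m : ℝ) + 1)) :
    ‖p‖ ≤ s := by
  have hm : (0 : ℝ) ≤ m := Nat.cast_nonneg m
  have hs1 : s / ((m : ℝ) + 1) ≤ s := by
    rw [div_le_iff₀ (by linarith)]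
    nlinarith
  rw [Prod.norm_def, max_le_iff]
  constructor
  · have := h 0
    unfold vc at this
    rw [Fin.cons_zero] at this
    exact this.trans hs1
  · rw [EuclideanSpace.norm_eq]
    apply Real.sqrt_le_iff.2
    refine ⟨hs, ?_⟩
    have h1 : ∀ i ∈ (Finset.univ : Finset (Fin m)), ‖p.2 i‖ ^ 2 ≤ (s / ((m : ℝ) + 1)) ^ 2 := by
      intro i _
      have := h i.succ
      unfold vc at this
      rw [Fin.cons_succ] at this
      exact pow_le_pow_left₀ (norm_nonneg _) this 2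
    refine (Finset.sum_le_sum h1).trans ?_
    rw [Finset.sum_const, Finset.card_univ, Fintype.card_fin, nsmul_eq_mul, div_pow]
    rw [mul_div_assoc', div_le_iff₀ (by positivity)]
    nlinarith [sq_nonneg s, mul_nonneg (sq_nonneg s) hm]

/-- the number of slices of a tube -/
theorem slices (hCBN : T_CBN) (m : ℕ) : ∃ CB : ℝ, 1 ≤ CB ∧ ∀ (R δ C₁ T : ℝ) (Q : Finset (Zi m)),
    1 ≤ R → 0 ≤ δ → 1 ≤ C₁ →
    (∀ q ∈ Q, ∀ q' ∈ Q, uq R T q = uq R T q' → ‖co R q - co R q'‖ ≤ C₁ * R ^ (1 / 2 + 2 * δ)) →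
    (Q.card : ℝ) ≤ CB * (C₁ * R ^ (2 * δ)) ^ (m + 2) * (Q.image (uq R T)).card := by
  obtain ⟨-, -, CB, hCB, hc, -⟩ := hCBN m
  refine ⟨CB, hCB, ?_⟩
  intro R δ C₁ T Q hR hδ hC₁ h
  refine card_le_real Q (uq R T) _ fun b hb => ?_
  rw [Finset.mem_image] at hb
  obtain ⟨q, hq, rfl⟩ := hb
  have hR0 : 0 < R := by linarith
  have hsq : 0 < Real.sqrt R := Real.sqrt_pos.2 hR0
  have hone : 1 ≤ R ^ (2 * δ) := Real.one_le_rpow hR (by linarith)
  refine hc (C₁ * R ^ (2 * δ)) (zc q) _ (by nlinarith) ?_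
  intro q' hq'
  rw [Finset.mem_filter] at hq'
  have h1 := h q' hq'.1 q hq hq'.2
  unfold Pool.Agent.H22.G.co at h1
  rw [← smul_sub, norm_smul, Real.norm_eq_abs, abs_of_pos hsq, Real.rpow_add hR0,
    ← Real.sqrt_eq_rpow] at h1
  have h2 : Real.sqrt R * ‖zc q' - zc q‖ ≤ Real.sqrt R * (C₁ * R ^ (2 * δ)) := by
    refine h1.trans (le_of_eq ?_)
    ring
  exact le_of_mul_le_mul_left h2 hsq

end

end Pool.Agent.H81.HDS
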