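import Pool.Agent.H81.HDS.Num

/-!
MP_ee74d2_an, theorem HD: a large part of the tubes has few back projections (CBA).
-/

set_option autoImplicit false

namespace Pool.Agent.H81.HDS

open Set
open Pool.Agent.H83.G Pool.Agent.H82.HD
open Pool.Agent.H22.G (co)

/-- **a large part of the tubes has few back projections** -/
theorem pf_CBA (hCMB : T_CMB) (hPRJ : T_PRJ) (hPRM : T_PRM) (_hBPG : T_BPG) (hCBN : T_CBN) :
    T_CBA := by
  classical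
  obtain ⟨C₃, hC₃, hcmb⟩ := hCMB
  refine ⟨2 * C₃ + 1, by omega, ?_⟩
  intro m hm
  obtain ⟨C₁, hC₁, hprj⟩ := hPRJ m
  obtain ⟨C₂, hC₂, hprm⟩ := hPRM m
  obtain ⟨CB, hCB, hsl⟩ := slices hCBN m
  have hm0 : (0 : ℝ) ≤ m := Nat.cast_nonneg m
  have hC₃' : (1 : ℝ) ≤ C₃ := by exact_mod_cast hC₃
  obtain ⟨g, hg⟩ : ∃ g : ℝ, g = 20 * ((m : ℝ) + 2) := ⟨_, rfl⟩
  have hg20 : 20 ≤ g := by rw [hg]; linarith
  have hg0 : 0 < g := by linarith
  -- the constant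
  obtain ⟨a, ha⟩ : ∃ a : ℝ, a = CB * C₁ ^ (m + 2) := ⟨_, rfl⟩
  obtain ⟨b, hb⟩ : ∃ b : ℝ, b = C₂ * C₁ := ⟨_, rfl⟩
  obtain ⟨c, hc⟩ : ∃ c : ℝ, c = C₃ * g := ⟨_, rfl⟩
  obtain ⟨d, hd⟩ : ∃ d : ℝ, d = 2 ^ 14 * g ^ 5 * (2 * (m : ℝ) + 4) := ⟨_, rfl⟩
  have ha1 : 1 ≤ a := by
    rw [ha]
    exact one_le_mul_of_one_le_of_one_le hCB (one_le_pow₀ hC₁)
  have hb1 : 1 ≤ b := by
    rw [hb]
    exact one_le_mul_of_one_le_of_one_le hC₂ hC₁
  have hc1 : 1 ≤ c := by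
    rw [hc]
    exact one_le_mul_of_one_le_of_one_le hC₃' (by linarith)
  have hG : (1 : ℝ) ≤ 2 ^ 14 * g ^ 5 := by
    have : (1 : ℝ) ≤ g ^ 5 := one_le_pow₀ (by linarith)
    linarith
  have hGd : 2 ^ 14 * g ^ 5 ≤ d := by
    rw [hd]
    exact le_mul_of_one_le_right (by linarith) (by linarith)
  have hd1 : 1 ≤ d := hG.trans hGd
  obtain ⟨C, hC⟩ : ∃ C : ℝ, C = a * b * c * d := ⟨_, rfl⟩
  have hab : 1 ≤ a * b := one_le_mul_of_one_le_of_one_le ha1 hb1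
  have haC : a ≤ C := by
    have h1 : C = a * (b * c * d) := by rw [hC]; ring
    rw [h1]
    exact le_mul_of_one_le_right (by linarith)
      (one_le_mul_of_one_le_of_one_le (one_le_mul_of_one_le_of_one_le hb1 hc1) hd1)
  have hbcC : b * c ≤ C := by
    have h1 : C = (b * c) * (a * d) := by rw [hC]; ring
    rw [h1]
    exact le_mul_of_one_le_right (by positivity) (one_le_mul_of_one_le_of_one_le ha1 hd1)
  have hbdC : b * d ≤ C := by
    have h1 : C = (b * d) * (a * c) := by rw [hC]; ring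
    rw [h1]
    exact le_mul_of_one_le_right (by positivity) (one_le_mul_of_one_le_of_one_le ha1 hc1)
  have hdC : d ≤ C := by
    have h1 : C = d * (a * b * c) := by rw [hC]; ring
    rw [h1]
    exact le_mul_of_one_le_right (by linarith) (one_le_mul_of_one_le_of_one_le hab hc1)
  have r2 : C₁ * (C₃ * g) ≤ C := by
    refine le_trans ?_ hbcC
    rw [← hc]
    refine mul_le_mul_of_nonneg_right ?_ (by linarith)
    rw [hb]
    exact le_mul_of_one_le_left (by linarith) hC₂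
  have r3 : C₂ * C₁ * (2 ^ 14 * g ^ 5) ≤ C := by
    refine le_trans ?_ hbdC
    rw [← hb]
    exact mul_le_mul_of_nonneg_left hGd (by linarith)
  have r6 : 2 ^ 14 * g ^ 5 * (2 * (m : ℝ) + 4) ≤ C := by
    rw [← hd]
    exact hdC
  have hC1 : 1 ≤ C := hd1.trans hdC
  refine ⟨C, hC1, ?_⟩
  intro R T δ n ω K Θ z₀ TT QQ hR hδ hT ht1 ht2 hTT hQQ hω hω1 hn hω6 hΘ hΘQ hK hΘK
  have hR0 : 0 < R := by linarith
  have hsr0 : 0 < Real.sqrt R := Real.sqrt_pos.2 hR0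
  have hsr1 : 1 ≤ Real.sqrt R := by
    rw [← Real.sqrt_one]
    exact Real.sqrt_le_sqrt hR
  have hT0 : 0 < T := lt_of_lt_of_le (by positivity) hT
  obtain ⟨P1, P2⟩ := hprj R T δ z₀ hR hδ hT ht1 ht2
  obtain ⟨ρ, hρd⟩ : ∃ ρ : ℝ, ρ = R ^ (2 * δ) := ⟨_, rfl⟩
  have hρ : 1 ≤ ρ := by
    rw [hρd]
    exact Real.one_le_rpow hR (by linarith)
  have hρ2 : R ^ (4 * δ) = ρ ^ 2 := by
    rw [hρd, ← Real.rpow_natCast (R ^ (2 * δ)) 2, ← Real.rpow_mul hR0.le]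
    congr 1
    push_cast
    ring
  have hρm : R ^ (2 * ((m : ℝ) + 2) * δ) = ρ ^ (m + 2) := by
    rw [hρd, ← Real.rpow_natCast (R ^ (2 * δ)) (m + 2), ← Real.rpow_mul hR0.le]
    congr 1
    push_cast
    ring
  obtain ⟨E, hE⟩ : ∃ E : ℝ, E = C₁ * ρ := ⟨_, rfl⟩
  have hE1 : 1 ≤ E := by rw [hE]; exact one_le_mul_of_one_le_of_one_le hC₁ hρ
  obtain ⟨κ, hκ⟩ : ∃ κ : ℝ, κ = ω / g := ⟨_, rfl⟩
  obtain ⟨J, hJ⟩ : ∃ J : ℝ, J = g * Real.sqrt R := ⟨_, rfl⟩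
  obtain ⟨ω', hω'⟩ : ∃ ω' : ℝ, ω' = ω ^ 6 / (g ^ 5 * 2 ^ 14) := ⟨_, rfl⟩
  obtain ⟨μ, hμ⟩ : ∃ μ : ℝ, μ = (C₂ * E / ω') ^ m * (C₂ * E * ρ) ^ (m + 2) := ⟨_, rfl⟩
  obtain ⟨num1, num2, hμ1⟩ := cba_num m C₃ C₁ C₂ g C ω ω' K μ E κ ρ hC₁ hC₂ hC₃ hg20 hω hω1 hK hρ
    hE hκ hω' hμ r2 r3 r6
  have hω'0 : 0 < ω' := by rw [hω']; positivity
  have hω'1 : ω' ≤ 1 := by
    rw [hω', div_le_one (by positivity)]
    have : ω ^ 6 ≤ 1 := pow_le_one₀ hω.le hω1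
    have h2 : (1 : ℝ) ≤ g ^ 5 := one_le_pow₀ (by linarith)
    linarith
  have hκJ6 : κ ^ 6 / 2 ^ 14 * J = ω' * Real.sqrt R := by
    rw [hκ, hJ, hω']
    field_simp
  have hκJ : κ * J = ω * Real.sqrt R := by
    rw [hκ, hJ]
    field_simp
  have hn0 : 0 < n := by
    refine lt_of_lt_of_le ?_ hn
    have : (0 : ℝ) < R ^ (2 * ((m : ℝ) + 2) * δ) := Real.rpow_pos_of_pos hR0 _
    positivity
  -- a cube on every tube
  have hq : ∀ Tu ∈ TT, ∃ q, q ∈ QQ ∧ Inc R δ Tu q := by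
    intro Tu hTu
    have h1 := (hTT Tu hTu).2
    have h2 : 0 < (QQ.filter (fun q => Inc R δ Tu q)).card := by
      have : (0 : ℝ) < ((QQ.filter (fun q => Inc R δ Tu q)).card : ℝ) := hn0.trans_le h1
      exact_mod_cast this
    obtain ⟨q, hq⟩ := Finset.card_pos.1 h2
    rw [Finset.mem_filter] at hq
    exact ⟨q, hq.1, hq.2⟩
  choose! qT hqT using hq
  obtain ⟨X0, hX0⟩ : ∃ X0 : Pk m → ℝ × Pool.Agent.H83.G.E m, X0 = fun Tu =>
    bp (ctr (sR R) Tu.1) (co R (qT Tu)) - (z₀.1, z₀.2.1) := ⟨_, rfl⟩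
  obtain ⟨P, hP⟩ : ∃ P : Pk m → Fin (m + 1) → ℝ, P = fun Tu i =>
    T / Real.sqrt R * vc (wv (ctr (sR R) Tu.1)) i := ⟨_, rfl⟩
  obtain ⟨V, hV⟩ : ∃ V : Pk m → Fin (m + 1) → ℝ, V = fun Tu i => T⁻¹ * vc (X0 Tu) i := ⟨_, rfl⟩
  obtain ⟨S, hS⟩ : ∃ S : Pk m → Finset ℤ, S = fun Tu =>
    (QQ.filter (fun q => Inc R δ Tu q)).image (uq R T) := ⟨_, rfl⟩
  obtain ⟨I, hI⟩ : ∃ I : Finset ℤ, I = QQ.image (uq R T) := ⟨_, rfl⟩
  obtain ⟨Y, hY⟩ : ∃ Y : ℤ → Finset (Fin (m + 1) → ℤ), Y = fun u =>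
    (QQ.filter (fun q => uq R T q = u)).image (yq R T z₀) := ⟨_, rfl⟩
  have hIm : ∀ u ∈ I, ∃ q ∈ QQ, uq R T q = u := by
    intro u hu
    rw [hI, Finset.mem_image] at hu
    exact hu
  obtain ⟨TT', hTT', h, hh, hc1', hc2'⟩ := hcmb (Fin (m + 1)) (Pk m) TT P V S I Y J κ Θ E μ K
    (by rw [hJ]; exact one_le_mul_of_one_le_of_one_le (by linarith) hsr1)
    (by rw [hκ]; positivity)
    (by rw [hκ, div_le_one hg0]; linarith)
    (by
      have h1 : κ ^ 6 * J = 2 ^ 14 * (ω' * Real.sqrt R) := by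
        rw [← hκJ6]
        ring
      rw [h1]
      have h2 : 1 ≤ ω' * Real.sqrt R := by
        rw [hω', div_mul_eq_mul_div, le_div_iff₀ (by positivity)]
        have := hGd.trans hdC
        linarith
      linarith)
    hΘ hE1 hμ1 hK
    (by
      intro u hu v hv
      obtain ⟨q, hq, rfl⟩ := hIm u hu
      obtain ⟨q', hq', rfl⟩ := hIm v hv
      have h1 := (P2 q q' (hQQ q hq) (hQQ q' hq')).1
      rw [hJ, hg]
      exact h1)
    (by
      intro Tu hTu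
      rw [hS, hI]
      refine ⟨Finset.image_subset_image (Finset.filter_subset _ _), ?_⟩
      rw [hκJ]
      have h1 := hsl R δ C₁ T (QQ.filter (fun q => Inc R δ Tu q)) hR hδ hC₁ (by
        intro q hq q' hq' huu
        rw [Finset.mem_filter] at hq hq'
        exact ((P2 q q' (hQQ q hq.1) (hQQ q' hq'.1)).2 Tu (hTT Tu hTu).1 hq.2 hq'.2).2 huu)
      have h2 := hn.trans ((hTT Tu hTu).2.trans h1)
      rw [← hρd, mul_pow, hρm, ← mul_assoc CB, ← ha] at h2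
      have h3 : a * ρ ^ (m + 2) * (ω * Real.sqrt R) ≤ C * ρ ^ (m + 2) * (ω * Real.sqrt R) := by
        refine mul_le_mul_of_nonneg_right ?_ (by positivity)
        exact mul_le_mul_of_nonneg_right haC (by positivity)
      have h4 : 0 < a * ρ ^ (m + 2) := by positivity
      exact le_of_mul_le_mul_left (h3.trans h2) h4)
    (by
      intro Tu hTu u hu
      rw [hS, Finset.mem_image] at hu
      obtain ⟨q, hq, rfl⟩ := hu
      rw [Finset.mem_filter] at hq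
      refine ⟨yq R T z₀ q, ?_, ?_⟩
      · rw [hY]
        exact Finset.mem_image_of_mem _ (Finset.mem_filter.2 ⟨hq.1, rfl⟩)
      · intro i
        have h1 := ((P2 q (qT Tu) (hQQ q hq.1) (hQQ _ (hqT Tu hTu).1)).2 Tu (hTT Tu hTu).1 hq.2
          (hqT Tu hTu).2).1 i
        rw [hP, hV, hX0, hE, hρd]
        exact h1)
    (by
      have h1 : ∀ u ∈ I, ((Y u).card : ℝ) ≤ ((QQ.filter (fun q => uq R T q = u)).card : ℝ) := by
        intro u _
        rw [hY]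
        exact_mod_cast Finset.card_image_le
      refine (Finset.sum_le_sum h1).trans ?_
      have h2 : ∑ u ∈ I, ((QQ.filter (fun q => uq R T q = u)).card : ℝ) = QQ.card := by
        rw [hI]
        have := Finset.card_eq_sum_card_image (uq R T) QQ
        rw [this]
        push_cast
        rfl
      rw [h2, hJ]
      refine hΘQ.trans ?_
      refine mul_le_mul_of_nonneg_left ?_ (by linarith)
      exact le_mul_of_one_le_left hsr0.le (by linarith))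
    (by
      intro u hu v hv huv y hy y' hy'
      obtain ⟨q, hq, rfl⟩ := hIm u hu
      rw [hκJ6] at huv
      have h1 := P1 q (hQQ q hq)
      have key : ∀ F : Finset (Pk m), (∀ Tu ∈ F, Tu ∈ TT ∧
          (∀ i, |P Tu i + (uq R T q : ℝ) * V Tu i - y i| ≤ E) ∧
          ∀ i, |P Tu i + (v : ℝ) * V Tu i - y' i| ≤ E) → (F.card : ℝ) ≤ μ := by
        intro F hF
        rw [hμ, hρd]
        refine hprm R T δ E ω' (uq R T q) v z₀ F qT (fun i => (y i : ℝ)) (fun i => (y' i : ℝ)) hR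
          hδ hT hE1 hω'0 hω'1 h1.2.2.1 h1.2.2.2 huv ?_
        intro Tu hTu
        obtain ⟨hTu1, hTu2, hTu3⟩ := hF Tu hTu
        rw [hP, hV, hX0] at hTu2 hTu3
        exact ⟨(hTT Tu hTu1).1, (hqT Tu hTu1).2, hQQ _ (hqT Tu hTu1).1, hTu2, hTu3⟩
      exact key _ (fun Tu hTu => (@Finset.mem_filter _ _ (_) _ _).1 hTu))
    hΘK
  rw [hκJ6] at hh
  rw [Fintype.card_fin] at hc1' hc2'
  have hm2 : m + 1 + 1 = m + 2 := rfl
  rw [hm2] at hc1' hc2'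
  obtain ⟨Kb, hKb⟩ : ∃ Kb : ℝ, Kb = (K * μ * (C₃ * E / κ) ^ (m + 2)) ^ C₃ := ⟨_, rfl⟩
  rw [← hKb] at hc1' hc2' num1
  have hKb0 : 0 ≤ Kb := by
    rw [hKb]
    have : 0 < κ := by rw [hκ]; positivity
    positivity
  -- the set is not empty
  have hTT0 : (0 : ℝ) < TT.card := by
    by_contra h0
    have h1 : (TT.card : ℝ) = 0 := le_antisymm (not_lt.1 h0) (Nat.cast_nonneg _)
    rw [h1, mul_zero] at hΘK
    have h2 : 1 ≤ Θ ^ 2 := one_le_pow₀ hΘ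
    linarith
  have hTT'ne : TT'.Nonempty := by
    rw [Finset.nonempty_iff_ne_empty]
    rintro rfl
    rw [Finset.card_empty, Nat.cast_zero, mul_zero] at hc1'
    linarith
  -- first pigeonhole
  obtain ⟨w1, hw1, hf1⟩ := big_fibre TT' (fun T i => ⌊(h : ℝ) * V T i⌋) hTT'ne
  obtain ⟨TA, hTA⟩ : ∃ TA : Finset (Pk m), TA = TT'.filter
    (fun x => (fun i => ⌊(h : ℝ) * V x i⌋) = w1) := ⟨_, rfl⟩
  have hf1' : (TT'.card : ℝ) ≤ Kb * Θ * TA.card := by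
    rw [hTA]
    exact hf1.trans (mul_le_mul_of_nonneg_right hc2' (Nat.cast_nonneg _))
  have hTAne : TA.Nonempty := by
    rw [Finset.mem_image] at hw1
    obtain ⟨x, hx, hx'⟩ := hw1
    exact ⟨x, by rw [hTA]; exact Finset.mem_filter.2 ⟨hx, hx'⟩⟩
  obtain ⟨σ, hσ⟩ : ∃ σ : ℝ, σ = T * sR R := ⟨_, rfl⟩
  have hσ' : σ = T / Real.sqrt R := by
    rw [hσ]
    unfold sR
    rw [div_eq_mul_inv]
  have hσ0 : 0 < σ := by rw [hσ']; positivity
  have hm1 : (0 : ℝ) < (m : ℝ) + 1 := by linarith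
  have hclose : ∀ x ∈ TA, ∀ x' ∈ TA, ∀ i,
      |((m : ℝ) + 1) * vc (X0 x) i / σ - ((m : ℝ) + 1) * vc (X0 x') i / σ| ≤
        ((m : ℝ) + 1) / ω' := by
    intro x hx x' hx' i
    rw [hTA, Finset.mem_filter] at hx hx'
    have e1 : ⌊(h : ℝ) * V x i⌋ = ⌊(h : ℝ) * V x' i⌋ :=
      (congrFun hx.2 i).trans (congrFun hx'.2 i).symm
    have e2 := Int.abs_sub_lt_one_of_floor_eq_floor e1
    rw [← mul_sub, abs_mul] at e2
    have e3 : ω' * Real.sqrt R * |V x i - V x' i| ≤ 1 :=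
      (mul_le_mul_of_nonneg_right hh (abs_nonneg _)).trans e2.le
    have e4 : V x i - V x' i = T⁻¹ * (vc (X0 x) i - vc (X0 x') i) := by
      rw [hV]
      ring
    rw [e4, abs_mul, abs_of_pos (inv_pos.2 hT0)] at e3
    have e5 : ((m : ℝ) + 1) * vc (X0 x) i / σ - ((m : ℝ) + 1) * vc (X0 x') i / σ =
        ((m : ℝ) + 1) / σ * (vc (X0 x) i - vc (X0 x') i) := by ring
    rw [e5, abs_mul, abs_of_pos (by positivity), le_div_iff₀ hω'0, hσ']
    have e6 : ((m : ℝ) + 1) / (T / Real.sqrt R) * |vc (X0 x) i - vc (X0 x') i| * ω' =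
        ((m : ℝ) + 1) * (ω' * Real.sqrt R * (T⁻¹ * |vc (X0 x) i - vc (X0 x') i|)) := by
      field_simp
    rw [e6]
    have := mul_le_mul_of_nonneg_left e3 hm1.le
    linarith
  -- second pigeonhole
  obtain ⟨w2, hw2, hf2⟩ := big_fibre TA (fun x i => ⌊((m : ℝ) + 1) * vc (X0 x) i / σ⌋) hTAne
  have hfl := card_floor TA (fun x i => ((m : ℝ) + 1) * vc (X0 x) i / σ) (((m : ℝ) + 1) / ω')
    (by positivity) hclose
  obtain ⟨TB, hTB⟩ : ∃ TB : Finset (Pk m), TB = TA.filter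
    (fun x => (fun i => ⌊((m : ℝ) + 1) * vc (X0 x) i / σ⌋) = w2) := ⟨_, rfl⟩
  have hf2' : (TA.card : ℝ) ≤ (K * (C * ρ ^ 2 / ω ^ 7) ^ (4 * (m + 2))) * TB.card := by
    rw [hTB]
    refine hf2.trans (mul_le_mul_of_nonneg_right (hfl.trans num2) (Nat.cast_nonneg _))
  rw [Finset.mem_image] at hw2
  obtain ⟨T₀, hT₀, hT₀'⟩ := hw2
  refine ⟨bp (ctr (sR R) T₀.1) (co R (qT T₀)), TB, ?_, ?_, ?_⟩
  · rw [hTB, hTA]
    exact (Finset.filter_subset _ _).trans ((Finset.filter_subset _ _).trans hTT')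
  · rw [hρ2]
    obtain ⟨M, hM⟩ : ∃ M : ℝ, M = K * (C * ρ ^ 2 / ω ^ 7) ^ (4 * (m + 2)) := ⟨_, rfl⟩
    rw [← hM] at num1 hf2' ⊢
    have hM0 : 0 ≤ M := by
      rw [hM]
      positivity
    have hΘ0 : 0 ≤ Θ := by linarith
    calc (TT.card : ℝ) ≤ Kb * TT'.card := hc1'
      _ ≤ Kb * (Kb * Θ * TA.card) := mul_le_mul_of_nonneg_left hf1' hKb0
      _ ≤ Kb * (Kb * Θ * (M * TB.card)) :=
          mul_le_mul_of_nonneg_left (mul_le_mul_of_nonneg_left hf2' (by positivity)) hKb0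
      _ = Kb * Kb * (Θ * (M * TB.card)) := by ring
      _ ≤ M ^ C₃ * M ^ C₃ * (Θ * (M * TB.card)) :=
          mul_le_mul_of_nonneg_right (mul_le_mul num1 num1 hKb0 (by positivity)) (by positivity)
      _ = M ^ (2 * C₃ + 1) * Θ * TB.card := by ring
  · intro Tu hTu
    rw [hTB, Finset.mem_filter] at hTu
    have hTu1 : Tu ∈ TT := by
      have := hTu.1
      rw [hTA, Finset.mem_filter] at this
      exact hTT' this.1
    refine ⟨qT Tu, (hqT Tu hTu1).1, (hqT Tu hTu1).2, ?_⟩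
    have e0 : bp (ctr (sR R) Tu.1) (co R (qT Tu)) - bp (ctr (sR R) T₀.1) (co R (qT T₀)) =
        X0 Tu - X0 T₀ := by
      rw [hX0]
      simp only [sub_sub_sub_cancel_right]
    rw [e0, ← hσ]
    refine norm_le_vc _ σ hσ0.le fun i => ?_
    rw [vc_sub]
    have e1 : ⌊((m : ℝ) + 1) * vc (X0 Tu) i / σ⌋ = ⌊((m : ℝ) + 1) * vc (X0 T₀) i / σ⌋ :=
      (congrFun hTu.2 i).trans (congrFun hT₀' i).symm
    have e2 := Int.abs_sub_lt_one_of_floor_eq_floor e1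
    have e5 : ((m : ℝ) + 1) * vc (X0 Tu) i / σ - ((m : ℝ) + 1) * vc (X0 T₀) i / σ =
        ((m : ℝ) + 1) / σ * (vc (X0 Tu) i - vc (X0 T₀) i) := by ring
    rw [e5, abs_mul, abs_of_pos (by positivity)] at e2
    rw [le_div_iff₀ hm1]
    have e6 : ((m : ℝ) + 1) / σ * |vc (X0 Tu) i - vc (X0 T₀) i| * σ =
        |vc (X0 Tu) i - vc (X0 T₀) i| * ((m : ℝ) + 1) := by
      field_simp
    have e7 := mul_le_mul_of_nonneg_right e2.le hσ0.le
    rw [e6, one_mul] at e7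
    exact e7

end Pool.Agent.H81.HDS
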