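import Pool.Agent.H81.HDS.Lib

/-!
MP_ee74d2_an, theorem HD: a large part of the tubes has numerical part of CBA.
-/

set_option autoImplicit false

namespace Pool.Agent.H81.HDS

open Set
open Pool.Agent.H83.G Pool.Agent.H82.HD
open Pool.Agent.H22.G (co)

/-- the numerical part -/
theorem cba_num (m C₃ : ℕ) (C₁ C₂ g C ω ω' K μ E κ ρ : ℝ) (hC₁ : 1 ≤ C₁) (hC₂ : 1 ≤ C₂)
    (hC₃ : 1 ≤ C₃) (hg : 20 ≤ g) (hω : 0 < ω) (hω1 : ω ≤ 1) (hK : 1 ≤ K) (hρ : 1 ≤ ρ)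
    (hE : E = C₁ * ρ) (hκ : κ = ω / g) (hω' : ω' = ω ^ 6 / (g ^ 5 * 2 ^ 14))
    (hμ : μ = (C₂ * E / ω') ^ m * (C₂ * E * ρ) ^ (m + 2))
    (r2 : C₁ * (C₃ * g) ≤ C) (r3 : C₂ * C₁ * (2 ^ 14 * g ^ 5) ≤ C)
    (r6 : 2 ^ 14 * g ^ 5 * (2 * (m : ℝ) + 4) ≤ C) :
    (K * μ * (C₃ * E / κ) ^ (m + 2)) ^ C₃ ≤ (K * (C * ρ ^ 2 / ω ^ 7) ^ (4 * (m + 2))) ^ C₃ ∧
    (2 * (((m : ℝ) + 1) / ω') + 2) ^ (m + 1) ≤ K * (C * ρ ^ 2 / ω ^ 7) ^ (4 * (m + 2)) ∧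
    1 ≤ μ := by
  have hg0 : 0 < g := by linarith
  have hC₃' : (1 : ℝ) ≤ C₃ := by exact_mod_cast hC₃
  have hm : (0 : ℝ) ≤ m := Nat.cast_nonneg m
  have hG : (1 : ℝ) ≤ 2 ^ 14 * g ^ 5 := by
    have : (1 : ℝ) ≤ g ^ 5 := one_le_pow₀ (by linarith)
    nlinarith
  have hC : 1 ≤ C := by nlinarith
  have hω'0 : 0 < ω' := by rw [hω']; positivity
  have hω6 : ω ^ 7 ≤ ω ^ 6 := pow_le_pow_of_le_one hω.le hω1 (by norm_num)
  have hω7 : ω ^ 7 ≤ ω := by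
    have := pow_le_pow_of_le_one hω.le hω1 (show 1 ≤ 7 by norm_num)
    simpa using this
  have hω71 : ω ^ 7 ≤ 1 := pow_le_one₀ hω.le hω1
  have hρ2 : ρ ≤ ρ ^ 2 := by nlinarith
  have hρ0 : 0 < ρ := by linarith
  obtain ⟨D, hD⟩ : ∃ D : ℝ, D = C * ρ ^ 2 / ω ^ 7 := ⟨_, rfl⟩
  rw [← hD]
  have hω7p : 0 < ω ^ 7 := by positivity
  have hD1 : 1 ≤ D := by
    rw [hD, le_div_iff₀ hω7p]
    nlinarith
  have ha : C₃ * E / κ ≤ D := by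
    rw [hE, hκ, hD]
    have e1 : (C₃ : ℝ) * (C₁ * ρ) / (ω / g) = C₁ * (C₃ * g) * ρ / ω := by
      field_simp
    rw [e1]
    have h1 : C₁ * (C₃ * g) * ρ ≤ C * ρ ^ 2 := mul_le_mul r2 hρ2 hρ0.le (by linarith)
    exact div_le_div₀ (by positivity) h1 hω7p hω7
  have hb : C₂ * E / ω' ≤ D := by
    rw [hE, hω', hD]
    have e1 : C₂ * (C₁ * ρ) / (ω ^ 6 / (g ^ 5 * 2 ^ 14)) =
        C₂ * C₁ * (2 ^ 14 * g ^ 5) * ρ / ω ^ 6 := by
      field_simp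
    rw [e1]
    have h1 : C₂ * C₁ * (2 ^ 14 * g ^ 5) * ρ ≤ C * ρ ^ 2 :=
      mul_le_mul r3 hρ2 hρ0.le (by linarith)
    exact div_le_div₀ (by positivity) h1 hω7p hω6
  have hc : C₂ * E * ρ ≤ D := by
    rw [hE, hD, le_div_iff₀ hω7p]
    have h1 : C₂ * C₁ ≤ C := by
      refine le_trans ?_ r3
      exact le_mul_of_one_le_right (by positivity) hG
    have h2 : C₂ * (C₁ * ρ) * ρ = C₂ * C₁ * ρ ^ 2 := by ring
    rw [h2]
    have h3 : C₂ * C₁ * ρ ^ 2 ≤ C * ρ ^ 2 := mul_le_mul_of_nonneg_right h1 (by positivity)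
    have h4 : C₂ * C₁ * ρ ^ 2 * ω ^ 7 ≤ C₂ * C₁ * ρ ^ 2 * 1 :=
      mul_le_mul_of_nonneg_left hω71 (by positivity)
    linarith
  have hd : 2 * (((m : ℝ) + 1) / ω') + 2 ≤ D := by
    have hω'1 : ω' ≤ 1 := by
      rw [hω', div_le_one (by positivity)]
      have : ω ^ 6 ≤ 1 := pow_le_one₀ hω.le hω1
      nlinarith
    have h1 : 2 * (((m : ℝ) + 1) / ω') + 2 ≤ (2 * m + 4) / ω' := by
      have h2 : (2 : ℝ) ≤ 2 / ω' := by
        rw [le_div_iff₀ hω'0]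
        linarith
      have h3 : 2 * (((m : ℝ) + 1) / ω') + 2 / ω' = (2 * m + 4) / ω' := by ring
      linarith
    refine h1.trans ?_
    rw [hω', hD]
    have e1 : (2 * (m : ℝ) + 4) / (ω ^ 6 / (g ^ 5 * 2 ^ 14)) =
        2 ^ 14 * g ^ 5 * (2 * (m : ℝ) + 4) / ω ^ 6 := by
      field_simp
    rw [e1]
    refine div_le_div₀ (by positivity) ?_ hω7p hω6
    nlinarith
  have hE0 : 0 < E := by rw [hE]; positivity
  have hb1 : 1 ≤ C₂ * E / ω' := by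
    rw [le_div_iff₀ hω'0, hE]
    have hω'1 : ω' ≤ 1 := by
      rw [hω', div_le_one (by positivity)]
      have : ω ^ 6 ≤ 1 := pow_le_one₀ hω.le hω1
      nlinarith
    have h1 : 1 ≤ C₂ * (C₁ * ρ) :=
      one_le_mul_of_one_le_of_one_le hC₂ (one_le_mul_of_one_le_of_one_le hC₁ hρ)
    linarith
  have hc1 : 1 ≤ C₂ * E * ρ := by
    rw [hE]
    exact one_le_mul_of_one_le_of_one_le
      (one_le_mul_of_one_le_of_one_le hC₂ (one_le_mul_of_one_le_of_one_le hC₁ hρ)) hρ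
  have hμ1 : 1 ≤ μ := by
    rw [hμ]
    exact one_le_mul_of_one_le_of_one_le (one_le_pow₀ hb1) (one_le_pow₀ hc1)
  have hμD : μ ≤ D ^ (2 * m + 2) := by
    rw [hμ]
    have h1 : (C₂ * E / ω') ^ m ≤ D ^ m := pow_le_pow_left₀ (by linarith) hb m
    have h2 : (C₂ * E * ρ) ^ (m + 2) ≤ D ^ (m + 2) := pow_le_pow_left₀ (by linarith) hc _
    refine (mul_le_mul h1 h2 (by positivity) (by positivity)).trans (le_of_eq ?_)
    rw [← pow_add]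
    congr 1
    omega
  have hκ0 : 0 < κ := by rw [hκ]; positivity
  refine ⟨?_, ?_, hμ1⟩
  · refine pow_le_pow_left₀ (by positivity) ?_ C₃
    rw [mul_assoc]
    refine mul_le_mul_of_nonneg_left ?_ (by linarith)
    have h1 : (C₃ * E / κ) ^ (m + 2) ≤ D ^ (m + 2) := pow_le_pow_left₀ (by positivity) ha _
    refine (mul_le_mul hμD h1 (by positivity) (by positivity)).trans ?_
    rw [← pow_add]
    exact pow_le_pow_right₀ hD1 (by omega)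
  · have h1 : (2 * (((m : ℝ) + 1) / ω') + 2) ^ (m + 1) ≤ D ^ (m + 1) :=
      pow_le_pow_left₀ (by positivity) hd _
    have h2 : D ^ (m + 1) ≤ D ^ (4 * (m + 2)) := pow_le_pow_right₀ hD1 (by omega)
    have h3 : D ^ (4 * (m + 2)) ≤ K * D ^ (4 * (m + 2)) :=
      le_mul_of_one_le_left (by positivity) hK
    exact h1.trans (h2.trans h3)

end Pool.Agent.H81.HDS
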